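import Pool.Agent.Y727.FG.Stm

/-!
# Upper bound for the permanent of `M = M E`, `E` a doubly stochastic idempotent
-/

set_option autoImplicit false

namespace Pool.Agent.Y908.FG

open Finset
open Pool.Agent.Y727.FG

theorem perm_rows {n : ℕ} (M : Matrix (Fin n) (Fin n) ℝ) :
    M.permanent = ∑ σ : Equiv.Perm (Fin n), ∏ i, M i (σ i) := by
  rw [← Matrix.permanent_transpose]
  rfl

/-- the permanent of the matrix with the rows `E (f i)` -/
noncomputable def Gf {n : ℕ} (E : Matrix (Fin n) (Fin n) ℝ) (f : Fin n → Fin n) : ℝ :=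
  ∑ σ : Equiv.Perm (Fin n), ∏ i, E (f i) (σ i)

theorem perm_expand {n : ℕ} (E M : Matrix (Fin n) (Fin n) ℝ) (h : M * E = M) :
    M.permanent = ∑ f : Fin n → Fin n, (∏ i, M i (f i)) * Gf E f := by
  rw [perm_rows]
  have h1 : ∀ σ : Equiv.Perm (Fin n), ∏ i, M i (σ i) =
      ∑ f : Fin n → Fin n, ∏ i, (M i (f i) * E (f i) (σ i)) := by
    intro σ
    have h2 : ∀ i, M i (σ i) = ∑ k, M i k * E k (σ i) := by
      intro i
      conv_lhs => rw [← h]
      rw [Matrix.mul_apply]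
    rw [Finset.prod_congr rfl fun i _ => h2 i]
    rw [Finset.prod_univ_sum]
    simp
  rw [Finset.sum_congr rfl fun σ _ => h1 σ, Finset.sum_comm]
  refine Finset.sum_congr rfl fun f _ => ?_
  rw [Gf, Finset.mul_sum]
  refine Finset.sum_congr rfl fun σ _ => ?_
  rw [Finset.prod_mul_distrib]

theorem Gf_good {n : ℕ} (E : Matrix (Fin n) (Fin n) ℝ) (hE : ∀ i j, E i j ≠ 0 → ∀ k, E i k = E j k)
    (f : Fin n → Fin n) (σ₀ : Equiv.Perm (Fin n)) (h : ∀ i, E (f i) (σ₀ i) ≠ 0) :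
    Gf E f = E.permanent := by
  rw [perm_rows, Gf]
  have h1 : ∀ σ : Equiv.Perm (Fin n), ∏ i, E (f i) (σ i) =
      ∏ i, E i ((σ * σ₀⁻¹) i) := by
    intro σ
    rw [← Equiv.prod_comp σ₀ (fun i => E i ((σ * σ₀⁻¹) i))]
    refine Finset.prod_congr rfl fun i _ => ?_
    rw [hE (f i) (σ₀ i) (h i)]
    simp
  rw [Finset.sum_congr rfl fun σ _ => h1 σ]
  exact Equiv.sum_comp (Equiv.mulRight σ₀⁻¹) (fun τ : Equiv.Perm (Fin n) => ∏ i, E i (τ i))

theorem Gf_bad {n : ℕ} (E : Matrix (Fin n) (Fin n) ℝ) (f : Fin n → Fin n)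
    (h : ¬ ∃ σ₀ : Equiv.Perm (Fin n), ∀ i, E (f i) (σ₀ i) ≠ 0) : Gf E f = 0 := by
  refine Finset.sum_eq_zero fun σ _ => ?_
  push Not at h
  obtain ⟨i, hi⟩ := h σ
  exact Finset.prod_eq_zero (Finset.mem_univ i) hi

theorem t_up : S_idem → S_up := by
  intro hid n E M hE hEE hM hME
  obtain ⟨hs, hd, hr⟩ := hid n E hE hEE
  have hrow : ∀ i j, E i j ≠ 0 → ∀ k, E i k = E j k := fun i j h => (hr i j h).2.2
  have hpE : 0 < E.permanent := by
    rw [perm_rows]
    have h1 : ∏ i, E i ((1 : Equiv.Perm (Fin n)) i) ≤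
        ∑ σ : Equiv.Perm (Fin n), ∏ i, E i (σ i) :=
      Finset.single_le_sum (f := fun σ : Equiv.Perm (Fin n) => ∏ i, E i (σ i))
        (fun σ _ => Finset.prod_nonneg fun i _ => hE.1 _ _) (Finset.mem_univ 1)
    refine lt_of_lt_of_le ?_ h1
    exact Finset.prod_pos fun i _ => by simpa using hd i
  have hG : ∀ f, Gf E f ≤ E.permanent := by
    intro f
    by_cases h : ∃ σ₀ : Equiv.Perm (Fin n), ∀ i, E (f i) (σ₀ i) ≠ 0
    · obtain ⟨σ₀, h⟩ := h
      exact (Gf_good E hrow f σ₀ h).le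
    · rw [Gf_bad E f h]; exact hpE.le
  have hw : ∀ f : Fin n → Fin n, 0 ≤ ∏ i, M i (f i) := fun f =>
    Finset.prod_nonneg fun i _ => hM.1 _ _
  have hw1 : ∑ f : Fin n → Fin n, ∏ i, M i (f i) = 1 := by
    have h1 : ∏ i, ∑ j, M i j = 1 := Finset.prod_eq_one fun i _ => hM.2.1 i
    rw [Finset.prod_univ_sum] at h1
    simpa using h1
  have hexp := perm_expand E M hME
  have hE1 : E.permanent = ∑ f : Fin n → Fin n, (∏ i, M i (f i)) * E.permanent := by
    rw [← Finset.sum_mul, hw1, one_mul]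
  constructor
  · rw [hexp, hE1]
    exact Finset.sum_le_sum fun f _ => mul_le_mul_of_nonneg_left (hE1 ▸ hG f) (hw f)
  · intro heq
    have hz : ∀ f : Fin n → Fin n, (∏ i, M i (f i)) * (E.permanent - Gf E f) = 0 := by
      have h1 : ∑ f : Fin n → Fin n, (∏ i, M i (f i)) * (E.permanent - Gf E f) = 0 := by
        simp only [mul_sub]
        rw [Finset.sum_sub_distrib, ← hexp, ← Finset.sum_mul, hw1, heq]
        ring
      have h2 := (Finset.sum_eq_zero_iff_of_nonneg (fun f _ =>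
        mul_nonneg (hw f) (sub_nonneg.2 (hG f)))).1 h1
      exact fun f => h2 f (Finset.mem_univ f)
    have hgood : ∀ f : Fin n → Fin n, ∏ i, M i (f i) ≠ 0 →
        ∃ σ₀ : Equiv.Perm (Fin n), ∀ i, E (f i) (σ₀ i) ≠ 0 := by
      intro f hf
      by_contra hc
      have h1 := hz f
      rw [Gf_bad E f hc, sub_zero] at h1
      rcases mul_eq_zero.1 h1 with h | h
      · exact hf h
      · exact hpE.ne' h
    obtain ⟨f₀, hf₀⟩ : ∃ f₀ : Fin n → Fin n, ∏ i, M i (f₀ i) ≠ 0 := by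
      by_contra hc
      push Not at hc
      rw [Finset.sum_eq_zero fun f _ => hc f] at hw1
      exact zero_ne_one hw1
    obtain ⟨σ₀, hσ₀⟩ := hgood f₀ hf₀
    refine ⟨σ₀, ?_⟩
    -- the support of the row `i` of `M`
    have hsup : ∀ i j, M i j ≠ 0 → E (σ₀ i) j ≠ 0 := by
      intro i j hij
      have hf1 : ∏ i', M i' (Function.update f₀ i j i') ≠ 0 := by
        rw [Finset.prod_ne_zero_iff] at hf₀ ⊢
        intro a _
        by_cases ha : a = i
        · subst ha; simpa using hij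
        · rw [Function.update_of_ne ha]; exact hf₀ a (Finset.mem_univ a)
      obtain ⟨σ₁, hσ₁⟩ := hgood _ hf1
      -- `σ₁ i'` is equivalent to `σ₀ i'` for `i' ≠ i`
      have h1 : ∀ a, a ≠ i → E (σ₀ i) (σ₁ a) = E (σ₀ i) (σ₀ a) := by
        intro a ha
        have h2 := hσ₁ a
        rw [Function.update_of_ne ha] at h2
        have h3 := hσ₀ a
        rw [hs (σ₀ i) (σ₁ a), hs (σ₀ i) (σ₀ a), ← hrow _ _ h2, ← hrow _ _ h3]
      have h2 : ∑ a, E (σ₀ i) (σ₁ a) = ∑ a, E (σ₀ i) (σ₀ a) := by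
        rw [Equiv.sum_comp σ₁ (fun x => E (σ₀ i) x), Equiv.sum_comp σ₀ (fun x => E (σ₀ i) x)]
      have h3 : E (σ₀ i) (σ₁ i) = E (σ₀ i) (σ₀ i) := by
        rw [← Finset.add_sum_erase univ _ (Finset.mem_univ i),
          ← Finset.add_sum_erase univ (fun a => E (σ₀ i) (σ₀ a)) (Finset.mem_univ i),
          Finset.sum_congr rfl fun a ha => h1 a (Finset.ne_of_mem_erase ha)] at h2
        exact add_right_cancel h2
      have h4 : E (σ₀ i) (σ₁ i) ≠ 0 := by rw [h3]; exact (hd _).ne'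
      have h5 : E j (σ₁ i) ≠ 0 := by
        have := hσ₁ i
        rwa [Function.update_self] at this
      rw [hs (σ₀ i) j, hrow _ _ h5, hs (σ₁ i)]
      exact h4
    intro i j
    calc M i j = ∑ k, M i k * E k j := by
          conv_lhs => rw [← hME]
          rw [Matrix.mul_apply]
      _ = ∑ k, M i k * E (σ₀ i) j := by
          refine Finset.sum_congr rfl fun k _ => ?_
          by_cases h : M i k = 0
          · rw [h, zero_mul, zero_mul]
          · rw [hrow _ _ (hsup i k h)]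
      _ = E (σ₀ i) j := by rw [← Finset.sum_mul, hM.2.1 i, one_mul]

end Pool.Agent.Y908.FG
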