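import Pool.Agent.Y727.FG.Stm

/-!
# The van der Waerden inequality from one elimination step
-/

set_option autoImplicit false

namespace Pool.Agent.Y908.FG

open Finset Filter Topology
open Pool.Agent.Y727.FG

/-- products of linear factors are at most the power of the mean -/
theorem prod_le_pow (n : ℕ) (l : Fin n → ℝ) (hl : ∀ i, 0 ≤ l i) (y : ℝ) (hy : 0 ≤ y)
    (h : ∑ i, l i = n * y) : ∏ i, (1 + l i) ≤ (1 + y) ^ n := by
  have hy1 : 0 < 1 + y := by linarith
  have h1 : ∀ i, 1 + l i ≤ (1 + y) * Real.exp ((l i - y) / (1 + y)) := by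
    intro i
    have h2 := Real.add_one_le_exp ((l i - y) / (1 + y))
    have h3 : (l i - y) / (1 + y) + 1 = (1 + l i) / (1 + y) := by field_simp; ring
    rw [h3, div_le_iff₀ hy1] at h2
    linarith
  calc ∏ i, (1 + l i) ≤ ∏ i, ((1 + y) * Real.exp ((l i - y) / (1 + y))) :=
        Finset.prod_le_prod (fun i _ => by linarith [hl i]) (fun i _ => h1 i)
    _ = (1 + y) ^ n * Real.exp (∑ i, (l i - y) / (1 + y)) := by
        rw [Finset.prod_mul_distrib, Real.exp_sum]
        simp
    _ = (1 + y) ^ n := by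
        rw [← Finset.sum_div, Finset.sum_sub_distrib, h]
        simp

/-- the univariate inequality of Gurvits for products of linear factors -/
theorem lin (k : ℕ) (a b : Fin (k + 1) → ℝ) (ha : ∀ i, 0 ≤ a i) (hb : ∀ i, 0 < b i) (X : ℝ)
    (hX : ∀ t : ℝ, 0 < t → t * X ≤ ∏ i, (a i * t + b i)) :
    ((k : ℝ) / (k + 1)) ^ k * X ≤ ∑ i, a i * ∏ i' ∈ univ.erase i, b i' := by
  set B := ∏ i, b i with hB
  have hB0 : 0 < B := Finset.prod_pos fun i _ => hb i
  set S := ∑ i, a i / b i with hS
  have hS0 : 0 ≤ S := Finset.sum_nonneg fun i _ => div_nonneg (ha i) (hb i).le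
  have e1 : ∑ i, a i * ∏ i' ∈ univ.erase i, b i' = S * B := by
    rw [hS, Finset.sum_mul]
    refine Finset.sum_congr rfl fun i _ => ?_
    have := (hb i).ne'
    rw [hB, ← Finset.mul_prod_erase univ b (Finset.mem_univ i)]
    field_simp
  have key : ∀ t : ℝ, 0 < t → t * X ≤ B * (1 + S * t / (k + 1)) ^ (k + 1) := by
    intro t ht
    refine (hX t ht).trans ?_
    have h1 : ∏ i, (a i * t + b i) = B * ∏ i, (1 + a i / b i * t) := by
      rw [hB, ← Finset.prod_mul_distrib]
      refine Finset.prod_congr rfl fun i _ => ?_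
      have := (hb i).ne'
      field_simp
      ring
    rw [h1]
    refine mul_le_mul_of_nonneg_left ?_ hB0.le
    refine prod_le_pow (k + 1) (fun i => a i / b i * t)
      (fun i => mul_nonneg (div_nonneg (ha i) (hb i).le) ht.le) _ (by positivity) ?_
    rw [← Finset.sum_mul, ← hS]
    push_cast
    field_simp
  rw [e1]
  rcases Nat.eq_zero_or_pos k with rfl | hk
  · simp only [pow_zero, one_mul]
    by_contra hc
    push Not at hc
    have hd : 0 < X - S * B := by linarith
    have h1 := key (2 * B / (X - S * B)) (by positivity)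
    have h2 : 2 * B / (X - S * B) * (X - S * B) = 2 * B := div_mul_cancel₀ _ hd.ne'
    simp only [Nat.cast_zero, zero_add, div_one, pow_one] at h1
    nlinarith
  · have hk' : (0 : ℝ) < k := by exact_mod_cast hk
    have hc0 : 0 < ((k : ℝ) / (k + 1)) ^ k := by positivity
    rcases hS0.eq_or_lt with h0 | hSp
    · rw [← h0, zero_mul]
      have hX0 : X ≤ 0 := by
        by_contra hc
        push Not at hc
        have h1 := key (2 * B / X) (by positivity)
        rw [← h0] at h1
        have h2 : 2 * B / X * X = 2 * B := by field_simp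
        simp only [zero_mul, zero_div, add_zero, one_pow, mul_one] at h1
        linarith
      exact mul_nonpos_of_nonneg_of_nonpos hc0.le hX0
    · have h1 := key (((k : ℝ) + 1) / (k * S)) (by positivity)
      have h2 : 1 + S * (((k : ℝ) + 1) / (k * S)) / (k + 1) = (k + 1) / k := by
        field_simp
      rw [h2] at h1
      have h3 : ((k : ℝ) / (k + 1)) ^ k * (((k : ℝ) + 1) / k) ^ k = 1 := by
        rw [← mul_pow]
        have : (k : ℝ) / (k + 1) * ((k + 1) / k) = 1 := by field_simp
        rw [this, one_pow]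
      have h4 : X ≤ S * B * (((k : ℝ) + 1) / k) ^ k := by
        have h5 : ((k : ℝ) + 1) / (k * S) * X * (S * (k / (k + 1))) = X := by field_simp
        have h6 := mul_le_mul_of_nonneg_right h1 (show 0 ≤ S * ((k : ℝ) / (k + 1)) by positivity)
        rw [h5] at h6
        refine h6.trans (le_of_eq ?_)
        rw [pow_succ]
        have h7 : ((k : ℝ) + 1) / k * (k / (k + 1)) = 1 := by field_simp
        linear_combination (B * (((k : ℝ) + 1) / k) ^ k * S) * h7
      calc ((k : ℝ) / (k + 1)) ^ k * X ≤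
            ((k : ℝ) / (k + 1)) ^ k * (S * B * (((k : ℝ) + 1) / k) ^ k) :=
            mul_le_mul_of_nonneg_left h4 hc0.le
        _ = S * B := by linear_combination (S * B) * h3

/-- rows and columns: weighted AM-GM -/
theorem amgm (n : ℕ) (A : Matrix (Fin n) (Fin n) ℝ) (hA : DS A) (y : Fin n → ℝ)
    (hy : ∀ j, 0 < y j) : ∏ j, y j ≤ ∏ i, ∑ j, A i j * y j := by
  have h1 : ∀ i, ∏ j, y j ^ A i j ≤ ∑ j, A i j * y j := fun i =>
    Real.geom_mean_le_arith_mean_weighted univ (A i) y (fun j _ => hA.1 i j) (hA.2.1 i)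
      (fun j _ => (hy j).le)
  calc ∏ j, y j = ∏ j, ∏ i, y j ^ A i j := by
        refine Finset.prod_congr rfl fun j _ => ?_
        rw [← Real.rpow_sum_of_pos (hy j), hA.2.2 j, Real.rpow_one]
    _ = ∏ i, ∏ j, y j ^ A i j := Finset.prod_comm
    _ ≤ _ := Finset.prod_le_prod
        (fun i _ => Finset.prod_nonneg fun j _ => (Real.rpow_pos_of_pos (hy j) _).le)
        (fun i _ => h1 i)

theorem step (k : ℕ) (A : Matrix (Fin (k + 1)) (Fin (k + 1)) ℝ) (hA : DS A) (x : Fin k → ℝ)
    (hx : ∀ j, 0 < x j) : ((k : ℝ) / (k + 1)) ^ k * ∏ j, x j ≤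
      ∑ i, A i 0 * ∏ i' ∈ univ.erase i, ∑ j : Fin k, A i' j.succ * x j := by
  set b : Fin (k + 1) → ℝ := fun i => ∑ j : Fin k, A i j.succ * x j with hb
  have hb0 : ∀ i, 0 ≤ b i := fun i =>
    Finset.sum_nonneg fun j _ => mul_nonneg (hA.1 _ _) (hx j).le
  have h1 : ∀ t : ℝ, 0 < t → t * ∏ j, x j ≤ ∏ i, (A i 0 * t + b i) := by
    intro t ht
    have h2 := amgm (k + 1) A hA (Fin.cons t x) (by
      intro j
      refine Fin.cases ?_ (fun j => ?_) j
      · simpa using ht
      · simpa using hx j)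
    simpa [Fin.prod_univ_succ, Fin.sum_univ_succ, hb] using h2
  have h2 : ∀ δ : ℝ, 0 < δ → ((k : ℝ) / (k + 1)) ^ k * ∏ j, x j ≤
      ∑ i, A i 0 * ∏ i' ∈ univ.erase i, (b i' + δ) := by
    intro δ hδ
    refine lin k (fun i => A i 0) (fun i => b i + δ) (fun i => hA.1 i 0)
      (fun i => by linarith [hb0 i]) _ (fun t ht => (h1 t ht).trans ?_)
    refine Finset.prod_le_prod (fun i _ => ?_) (fun i _ => ?_)
    · have := mul_nonneg (hA.1 i 0) ht.le
      linarith [hb0 i]
    · linarith
  have h3 : Tendsto (fun δ : ℝ => ∑ i, A i 0 * ∏ i' ∈ univ.erase i, (b i' + δ))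
      (𝓝[>] 0) (𝓝 (∑ i, A i 0 * ∏ i' ∈ univ.erase i, (b i' + 0))) := by
    have : Continuous (fun δ : ℝ => ∑ i, A i 0 * ∏ i' ∈ univ.erase i, (b i' + δ)) := by
      fun_prop
    exact (this.tendsto 0).mono_left nhdsWithin_le_nhds
  simp only [add_zero] at h3
  exact ge_of_tendsto h3 (eventually_mem_nhdsWithin.mono fun δ hδ => h2 δ hδ)

theorem t_vdw : S_col → S_vdw := by
  intro hcol n A hA
  rcases n with _ | k
  · simp [Matrix.permanent]
  · have h0 : (0 : ℝ) < ((k : ℝ) / (k + 1)) ^ k := by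
      rcases Nat.eq_zero_or_pos k with rfl | hk
      · simp
      · have : (0 : ℝ) < k := by exact_mod_cast hk
        positivity
    have h1 := hcol k A hA _ h0 (fun x hx => step k A hA x hx)
    refine le_trans (le_of_eq ?_) h1
    rw [Nat.factorial_succ]
    push_cast
    rcases Nat.eq_zero_or_pos k with rfl | hk
    · simp
    · have : (0 : ℝ) < k := by exact_mod_cast hk
      rw [div_pow, pow_succ]
      field_simp

end Pool.Agent.Y908.FG
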